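import Mathlib
import Pool.Agent.T6.H52.Cvx.Theta

/-! The self-similar function `F(x, y) = δ ∑ w_i(x) F(2x, y/δ - c_i)`. -/

set_option autoImplicit false

open Set Filter Topology

namespace T6H52.Cvx

/-- positions of the eight digits -/
def c : Fin 8 → ℝ := ![-7, -5, -3, -1, 1, 3, 5, 7]
/-- sign of the dependence on the profile -/
def s : Fin 8 → ℝ := ![-1, 1, 1, -1, -1, 1, 1, -1]
/-- constant term of the weights -/
def b : Fin 8 → ℝ := ![1, 0, 0, 1, 1, 0, 0, 1]

variable (P : Profile)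

/-- weights of the digits -/
noncomputable def w (i : Fin 8) (x : ℝ) : ℝ := (b i + s i * P.t x) / 4

lemma w_nonneg (i : Fin 8) (x : ℝ) : 0 ≤ w P i x := by
  have h1 := P.nonneg x
  have h2 := P.le_one x
  fin_cases i <;> simp [w, b, s] <;> linarith

lemma w_le (i : Fin 8) (x : ℝ) : w P i x ≤ 1 / 4 := by
  have h1 := P.nonneg x
  have h2 := P.le_one x
  fin_cases i <;> simp [w, b, s] <;> linarith

lemma sum_w (x : ℝ) : ∑ i, w P i x = 1 := by
  simp only [w, b, s, Fin.sum_univ_eight, Matrix.cons_val]; ring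

lemma sum_wc (x : ℝ) : ∑ i, w P i x * c i = 0 := by
  simp only [w, b, s, c, Fin.sum_univ_eight, Matrix.cons_val]; ring

lemma abs_c (i : Fin 8) : |c i| ≤ 7 := by
  fin_cases i <;> simp [c] <;> norm_num [abs_le]

lemma abs_s (i : Fin 8) : |s i| = 1 := by
  fin_cases i <;> simp [s]

lemma c_sep (i j : Fin 8) (h : i ≠ j) : 2 ≤ |c i - c j| := by
  fin_cases i <;> fin_cases j <;> simp_all [c] <;> norm_num [abs]

lemma w_hasDeriv (i : Fin 8) (x : ℝ) : HasDerivAt (w P i) (s i * P.t1 x / 4) x := by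
  unfold w
  exact (((P.d1 x).const_mul (s i)).const_add (b i)).div_const 4

lemma w1_hasDeriv (i : Fin 8) (x : ℝ) :
    HasDerivAt (fun x => s i * P.t1 x / 4) (s i * P.t2 x / 4) x :=
  ((P.d2 x).const_mul (s i)).div_const 4

/-- positive part -/
noncomputable def pp (y : ℝ) : ℝ := max y 0

lemma pp_of_nonneg {y : ℝ} (h : 0 ≤ y) : pp y = y := max_eq_left h
lemma pp_of_nonpos {y : ℝ} (h : y ≤ 0) : pp y = 0 := max_eq_right h
lemma pp_lip (y z : ℝ) : |pp y - pp z| ≤ |y - z| := by
  unfold pp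
  exact abs_max_sub_max_le_abs _ _ _
lemma pp_cont : Continuous pp := continuous_id.max continuous_const

variable (δ : ℝ)

/-- inhomogeneous term -/
noncomputable def R (z : ℝ × ℝ) : ℝ := δ * ∑ i, w P i z.1 * pp (z.2 / δ - c i) - pp z.2

lemma w_cont (i : Fin 8) : Continuous (w P i) :=
  continuous_iff_continuousAt.2 fun x => (w_hasDeriv P i x).continuousAt

lemma R_cont : Continuous (R P δ) := by
  unfold R
  refine (continuous_const.mul ?_).sub (pp_cont.comp continuous_snd)
  refine continuous_finsetSum _ fun i _ => ?_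
  exact ((w_cont P i).comp continuous_fst).mul
    (pp_cont.comp ((continuous_snd.div_const δ).sub continuous_const))

lemma pp_scale {δ : ℝ} (hδ : 0 < δ) (y c : ℝ) : δ * pp (y / δ - c) = pp (y - δ * c) := by
  unfold pp
  rw [mul_max_of_nonneg _ _ hδ.le, mul_zero]
  congr 1
  field_simp

lemma R_bound {δ : ℝ} (hδ : 0 < δ) (z : ℝ × ℝ) : |R P δ z| ≤ 7 * δ := by
  have h1 : R P δ z = ∑ i, w P i z.1 * (pp (z.2 - δ * c i) - pp z.2) := by
    unfold R
    simp only [mul_sub]
    rw [Finset.sum_sub_distrib, ← Finset.sum_mul, sum_w, one_mul, Finset.mul_sum]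
    congr 1
    refine Finset.sum_congr rfl fun i _ => ?_
    rw [← pp_scale hδ]; ring
  rw [h1]
  calc |∑ i, w P i z.1 * (pp (z.2 - δ * c i) - pp z.2)|
      ≤ ∑ i, |w P i z.1 * (pp (z.2 - δ * c i) - pp z.2)| := Finset.abs_sum_le_sum_abs _ _
    _ ≤ ∑ i, w P i z.1 * (7 * δ) := by
        refine Finset.sum_le_sum fun i _ => ?_
        rw [abs_mul, abs_of_nonneg (w_nonneg P i _)]
        refine mul_le_mul_of_nonneg_left ?_ (w_nonneg P i _)
        refine (pp_lip _ _).trans ?_
        have : z.2 - δ * c i - z.2 = -(δ * c i) := by ring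
        rw [this, abs_neg, abs_mul, abs_of_pos hδ]
        have := abs_c i
        nlinarith
    _ = 7 * δ := by rw [← Finset.sum_mul, sum_w, one_mul]

/-- `R` as a bounded continuous function -/
noncomputable def Rb {δ : ℝ} (hδ : 0 < δ) : BoundedContinuousFunction (ℝ × ℝ) ℝ :=
  BoundedContinuousFunction.ofNormedAddCommGroup (R P δ) (R_cont P δ) (7 * δ)
    (fun z => R_bound P hδ z)

/-- the linear part of the fixed point equation -/
noncomputable def L (H : BoundedContinuousFunction (ℝ × ℝ) ℝ) :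
    BoundedContinuousFunction (ℝ × ℝ) ℝ :=
  BoundedContinuousFunction.ofNormedAddCommGroup
    (fun z => ∑ i, w P i z.1 * H (2 * z.1, z.2 / δ - c i))
    (by
      refine continuous_finsetSum _ fun i _ => ?_
      refine ((w_cont P i).comp continuous_fst).mul (H.continuous.comp ?_)
      exact (continuous_const.mul continuous_fst).prodMk
        ((continuous_snd.div_const δ).sub continuous_const)) ‖H‖
    (fun z => by
      calc ‖∑ i, w P i z.1 * H (2 * z.1, z.2 / δ - c i)‖
          ≤ ∑ i, ‖w P i z.1 * H (2 * z.1, z.2 / δ - c i)‖ := norm_sum_le _ _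
        _ ≤ ∑ i, w P i z.1 * ‖H‖ := by
            refine Finset.sum_le_sum fun i _ => ?_
            rw [norm_mul, Real.norm_of_nonneg (w_nonneg P i _)]
            exact mul_le_mul_of_nonneg_left (H.norm_coe_le_norm _) (w_nonneg P i _)
        _ = ‖H‖ := by rw [← Finset.sum_mul, sum_w, one_mul])

lemma L_apply (H : BoundedContinuousFunction (ℝ × ℝ) ℝ) (z : ℝ × ℝ) :
    L P δ H z = ∑ i, w P i z.1 * H (2 * z.1, z.2 / δ - c i) := rfl

lemma L_norm (H : BoundedContinuousFunction (ℝ × ℝ) ℝ) : ‖L P δ H‖ ≤ ‖H‖ :=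
  BoundedContinuousFunction.norm_ofNormedAddCommGroup_le _ (norm_nonneg _) _

lemma L_sub (H G : BoundedContinuousFunction (ℝ × ℝ) ℝ) : L P δ H - L P δ G = L P δ (H - G) := by
  ext z
  simp only [BoundedContinuousFunction.coe_sub, Pi.sub_apply, L_apply]
  rw [← Finset.sum_sub_distrib]
  refine Finset.sum_congr rfl fun i _ => ?_
  ring

theorem exists_H {δ : ℝ} (hδ : 0 < δ) (hδ1 : δ ≤ 1 / 16) :
    ∃ H : BoundedContinuousFunction (ℝ × ℝ) ℝ, (∀ z, H z = δ * L P δ H z + R P δ z) ∧ ‖H‖ ≤ 1 := by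
  set T : BoundedContinuousFunction (ℝ × ℝ) ℝ → BoundedContinuousFunction (ℝ × ℝ) ℝ :=
    fun H => δ • L P δ H + Rb P hδ with hT
  have hlip : LipschitzWith (Real.toNNReal δ) T := by
    refine LipschitzWith.of_dist_le_mul fun H G => ?_
    rw [dist_eq_norm, dist_eq_norm]
    have : T H - T G = δ • L P δ (H - G) := by
      rw [← L_sub, smul_sub]
      simp only [hT]
      abel
    rw [this, norm_smul, Real.norm_of_nonneg hδ.le, Real.coe_toNNReal _ hδ.le]
    exact mul_le_mul_of_nonneg_left (L_norm P δ _) hδ.le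
  have hcon : ContractingWith (Real.toNNReal δ) T := by
    refine ⟨?_, hlip⟩
    rw [Real.toNNReal_lt_one]
    linarith
  set H := hcon.fixedPoint T with hH
  have hfix : T H = H := hcon.fixedPoint_isFixedPt
  have heq : ∀ z, H z = δ * L P δ H z + R P δ z := by
    intro z
    conv_lhs => rw [← hfix]
    rfl
  refine ⟨H, heq, ?_⟩
  have h1 : ‖H‖ ≤ δ * ‖H‖ + 7 * δ := by
    rw [BoundedContinuousFunction.norm_le (by positivity)]
    intro z
    rw [heq z]
    refine (norm_add_le _ _).trans ?_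
    refine add_le_add ?_ (R_bound P hδ z)
    rw [norm_mul, Real.norm_of_nonneg hδ.le]
    exact mul_le_mul_of_nonneg_left (((L P δ H).norm_coe_le_norm z).trans (L_norm P δ H)) hδ.le
  nlinarith [norm_nonneg H]

end T6H52.Cvx
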