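import Mathlib
import Pool.Agent.T6.H52.Cvx.Func

/-! The good points of the self-similar function, where it is affine in `y` with controlled
coefficients. -/

set_option autoImplicit false

open Set Filter Topology

namespace T6H52.Cvx

/-- the data: profile, scale and the self-similar function -/
structure Dat where
  P : Profile
  δ : ℝ
  F : ℝ × ℝ → ℝ
  hδ : δ = 1 / (256 * P.M)
  cont : Continuous F
  eqn : ∀ x y, F (x, y) = δ * ∑ i, w P i x * F (2 * x, y / δ - c i)
  out : ∀ x y, 8 * δ ≤ |y| → F (x, y) = pp y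
  bd : ∀ x y, |F (x, y)| ≤ |y| + 1

theorem exists_dat : Nonempty Dat := by
  obtain ⟨P⟩ := exists_profile
  have hM := P.hM
  set δ : ℝ := 1 / (256 * P.M) with hδdef
  have hδ : 0 < δ := by positivity
  have hδ1 : δ ≤ 1 / 256 := by
    rw [hδdef]
    apply one_div_le_one_div_of_le <;> linarith
  obtain ⟨H, hH, hH1⟩ := exists_H P hδ (by linarith)
  have hRz : ∀ x y, 8 * δ ≤ |y| → R P δ (x, y) = 0 := by
    intro x y hy
    have h1 : R P δ (x, y) = ∑ i, w P i x * (pp (y - δ * c i)) - pp y := by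
      unfold R
      rw [Finset.mul_sum]
      congr 1
      refine Finset.sum_congr rfl fun i _ => ?_
      rw [← pp_scale hδ]; ring
    rw [h1]
    rcases le_abs.1 hy with h | h
    · have h2 : ∀ i, pp (y - δ * c i) = y - δ * c i := by
        intro i
        apply pp_of_nonneg
        have := abs_le.1 (abs_c i)
        nlinarith
      rw [pp_of_nonneg (by linarith : (0:ℝ) ≤ y)]
      have h3 : ∑ i, w P i x * pp (y - δ * c i) = (∑ i, w P i x) * y - δ * ∑ i, w P i x * c i := by
        rw [Finset.sum_mul, Finset.mul_sum, ← Finset.sum_sub_distrib]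
        refine Finset.sum_congr rfl fun i _ => ?_
        rw [h2]; ring
      rw [h3, sum_w, sum_wc]; ring
    · have h2 : ∀ i, pp (y - δ * c i) = 0 := by
        intro i
        apply pp_of_nonpos
        have := abs_le.1 (abs_c i)
        nlinarith
      rw [pp_of_nonpos (by linarith : y ≤ (0:ℝ))]
      simp [h2]
  have hfar : ∀ y i, 8 * δ ≤ |y| → 8 * δ ≤ |y / δ - c i| := by
    intro y i hy
    have h1 : 8 ≤ |y| / δ := by rw [le_div_iff₀ hδ]; linarith
    have h2 : |y| / δ = |y / δ| := by rw [abs_div, abs_of_pos hδ]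
    have h3 := abs_sub_abs_le_abs_sub (y / δ) (c i)
    have h4 := abs_c i
    linarith
  have hHn : ∀ n : ℕ, ∀ x y, 8 * δ ≤ |y| → |H (x, y)| ≤ δ ^ n := by
    intro n
    induction n with
    | zero =>
      intro x y _
      have := H.norm_coe_le_norm (x, y)
      rw [Real.norm_eq_abs] at this
      rw [pow_zero]; linarith
    | succ n ih =>
      intro x y hy
      rw [hH, hRz x y hy, add_zero, abs_mul, abs_of_pos hδ, pow_succ', L_apply]
      refine mul_le_mul_of_nonneg_left ?_ hδ.le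
      calc |∑ i, w P i x * H (2 * x, y / δ - c i)|
          ≤ ∑ i, |w P i x * H (2 * x, y / δ - c i)| := Finset.abs_sum_le_sum_abs _ _
        _ ≤ ∑ i, w P i x * δ ^ n := by
            refine Finset.sum_le_sum fun i _ => ?_
            rw [abs_mul, abs_of_nonneg (w_nonneg P i _)]
            exact mul_le_mul_of_nonneg_left (ih _ _ (hfar y i hy)) (w_nonneg P i _)
        _ = δ ^ n := by rw [← Finset.sum_mul, sum_w, one_mul]
  have hHz : ∀ x y, 8 * δ ≤ |y| → H (x, y) = 0 := by
    intro x y hy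
    have h1 : Tendsto (fun n : ℕ => δ ^ n) atTop (𝓝 0) :=
      tendsto_pow_atTop_nhds_zero_of_lt_one hδ.le (by linarith)
    have h2 : |H (x, y)| ≤ 0 := ge_of_tendsto' h1 fun n => hHn n x y hy
    exact abs_nonpos_iff.1 h2
  refine ⟨⟨P, δ, fun z => pp z.2 + H z, hδdef, ?_, ?_, ?_, ?_⟩⟩
  · exact (pp_cont.comp continuous_snd).add H.continuous
  · intro x y
    simp only
    rw [hH, L_apply]
    unfold R
    simp only [mul_add, Finset.sum_add_distrib]
    ring
  · intro x y hy
    simp only [hHz x y hy, add_zero]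
  · intro x y
    have h1 := H.norm_coe_le_norm (x, y)
    rw [Real.norm_eq_abs] at h1
    have h2 : |pp y| ≤ |y| := by
      have := pp_lip y 0
      simpa [pp] using this
    calc |pp y + H (x, y)| ≤ |pp y| + |H (x, y)| := abs_add_le _ _
      _ ≤ |y| + 1 := by linarith

namespace Dat

variable (d : Dat)

lemma δpos : 0 < d.δ := by
  have := d.P.hM
  rw [d.hδ]; positivity

lemma Mδ : d.P.M * d.δ = 1 / 256 := by
  have := d.P.hM
  rw [d.hδ]
  have : d.P.M ≠ 0 := by linarith
  field_simp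

lemma δle : d.δ ≤ 1 / 256 := by
  have h := d.P.hM
  have h1 := d.Mδ
  have h2 := d.δpos
  nlinarith

/-- `F` is affine in `y` near `z` with controlled coefficients. -/
def Good (z : ℝ × ℝ) : Prop :=
  ∃ ε > 0, ∃ a a1 a2 g g1 g2 : ℝ → ℝ,
    (∀ x, HasDerivAt a (a1 x) x) ∧ (∀ x, HasDerivAt a1 (a2 x) x) ∧
    (∀ x, HasDerivAt g (g1 x) x) ∧ (∀ x, HasDerivAt g1 (g2 x) x) ∧
    ∀ x y, |x - z.1| < ε → |y - z.2| < ε →
      d.F (x, y) = a x + g x * y ∧ 0 ≤ g x ∧ g x ≤ 1 ∧ |g1 x| ≤ 4 * d.P.M ∧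
        |a1 x + g1 x * y| ≤ 4 * d.P.M ∧ |a2 x + g2 x * y| ≤ 4 * d.P.M

lemma good_far (z : ℝ × ℝ) (hz : 8 * d.δ < |z.2|) : d.Good z := by
  have hM := d.P.hM
  rcases lt_abs.1 hz with h | h
  · refine ⟨z.2 - 8 * d.δ, by linarith, fun _ => 0, fun _ => 0, fun _ => 0, fun _ => 1,
      fun _ => 0, fun _ => 0, fun x => hasDerivAt_const x _, fun x => hasDerivAt_const x _,
      fun x => hasDerivAt_const x _, fun x => hasDerivAt_const x _, ?_⟩
    intro x y _ hy
    have h1 := (abs_lt.1 hy).1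
    have h3 := d.δpos
    have h2 : 8 * d.δ ≤ |y| := le_abs.2 (Or.inl (by linarith))
    refine ⟨?_, by norm_num, by norm_num, ?_, ?_, ?_⟩
    · rw [d.out x y h2, pp_of_nonneg (by linarith)]; ring
    all_goals simp; linarith
  · refine ⟨-z.2 - 8 * d.δ, by linarith, fun _ => 0, fun _ => 0, fun _ => 0, fun _ => 0,
      fun _ => 0, fun _ => 0, fun x => hasDerivAt_const x _, fun x => hasDerivAt_const x _,
      fun x => hasDerivAt_const x _, fun x => hasDerivAt_const x _, ?_⟩
    intro x y _ hy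
    have h1 := (abs_lt.1 hy).2
    have h3 := d.δpos
    have h2 : 8 * d.δ ≤ |y| := le_abs.2 (Or.inr (by linarith))
    refine ⟨?_, by norm_num, by norm_num, ?_, ?_, ?_⟩
    · rw [d.out x y h2, pp_of_nonpos (by linarith)]; ring
    all_goals simp; linarith

lemma good_open : IsOpen {z | d.Good z} := by
  rw [Metric.isOpen_iff]
  rintro z ⟨ε, hε, a, a1, a2, g, g1, g2, h1, h2, h3, h4, h5⟩
  refine ⟨ε / 2, by positivity, ?_⟩
  intro z' hz'
  rw [Metric.mem_ball, Prod.dist_eq, max_lt_iff, Real.dist_eq, Real.dist_eq] at hz'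
  refine ⟨ε / 2, by positivity, a, a1, a2, g, g1, g2, h1, h2, h3, h4, ?_⟩
  intro x y hx hy
  refine h5 x y ?_ ?_
  · have : x - z.1 = (x - z'.1) + (z'.1 - z.1) := by ring
    rw [this]
    refine (abs_add_le _ _).trans_lt ?_
    linarith [hz'.1]
  · have : y - z.2 = (y - z'.2) + (z'.2 - z.2) := by ring
    rw [this]
    refine (abs_add_le _ _).trans_lt ?_
    linarith [hz'.2]

end Dat

end T6H52.Cvx
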