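import Mathlib
import Pool.Agent.T6.H52.Cvx.Good

/-! The step lemma: goodness pulls back under the self-similarity. -/

set_option autoImplicit false

open Set Filter Topology

namespace T6H52.Cvx

namespace Dat

variable (d : Dat)

/-- inner data for the step -/
def Inner (i : Fin 8) (x0 y0 : ℝ) : Prop :=
  ∃ ε > 0, ∃ a a1 a2 g g1 g2 : ℝ → ℝ,
    (∀ x, HasDerivAt a (a1 x) x) ∧ (∀ x, HasDerivAt a1 (a2 x) x) ∧
    (∀ x, HasDerivAt g (g1 x) x) ∧ (∀ x, HasDerivAt g1 (g2 x) x) ∧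
    ∀ x y, |x - x0| < ε → |y - y0| < ε →
      w d.P i x * d.F (2 * x, y / d.δ - c i) = w d.P i x * (a (2 * x) + g (2 * x) * (y / d.δ - c i)) ∧
      |a (2 * x) + g (2 * x) * (y / d.δ - c i)| ≤ 17 ∧
      0 ≤ g (2 * x) ∧ g (2 * x) ≤ 1 ∧ |g1 (2 * x)| ≤ 4 * d.P.M ∧
        |a1 (2 * x) + g1 (2 * x) * (y / d.δ - c i)| ≤ 4 * d.P.M ∧
        |a2 (2 * x) + g2 (2 * x) * (y / d.δ - c i)| ≤ 4 * d.P.M

lemma inner_of_zero (i : Fin 8) (x0 y0 : ℝ) (h : ∀ᶠ x in 𝓝 x0, w d.P i x = 0) :
    d.Inner i x0 y0 := by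
  have hM := d.P.hM
  obtain ⟨ε, hε, h1⟩ := Metric.eventually_nhds_iff.1 h
  refine ⟨ε, hε, fun _ => 0, fun _ => 0, fun _ => 0, fun _ => 0,
      fun _ => 0, fun _ => 0, fun x => hasDerivAt_const x _, fun x => hasDerivAt_const x _,
      fun x => hasDerivAt_const x _, fun x => hasDerivAt_const x _, ?_⟩
  intro x y hx hy
  have h2 : w d.P i x = 0 := h1 (by rwa [Real.dist_eq])
  refine ⟨by rw [h2]; ring, by simp, by simp, by simp, ?_, ?_, ?_⟩
  all_goals simp; linarith

lemma inner_of_good (i : Fin 8) (x0 y0 : ℝ) (hy0 : |y0| ≤ 8 * d.δ)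
    (h : d.Good (2 * x0, y0 / d.δ - c i)) : d.Inner i x0 y0 := by
  have hM := d.P.hM
  have hδ := d.δpos
  have hδ1 := d.δle
  obtain ⟨ε, hε, a, a1, a2, g, g1, g2, h1, h2, h3, h4, h5⟩ := h
  refine ⟨min (ε / 2) (min (ε * d.δ) d.δ), by positivity, a, a1, a2, g, g1, g2, h1, h2, h3, h4, ?_⟩
  intro x y hx hy
  have hx1 : |2 * x - 2 * x0| < ε := by
    rw [← mul_sub, abs_mul, abs_two]
    have := hx.trans_le (min_le_left _ _)
    linarith
  have hy1 : |y - y0| < ε * d.δ :=
    hy.trans_le ((min_le_right _ _).trans (min_le_left _ _))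
  have hy2 : |y - y0| < d.δ :=
    hy.trans_le ((min_le_right _ _).trans (min_le_right _ _))
  have hy3 : |(y / d.δ - c i) - (y0 / d.δ - c i)| < ε := by
    have : (y / d.δ - c i) - (y0 / d.δ - c i) = (y - y0) / d.δ := by ring
    rw [this, abs_div, abs_of_pos hδ, div_lt_iff₀ hδ]
    exact hy1
  obtain ⟨e1, e2, e3, e4, e5, e6⟩ := h5 (2 * x) (y / d.δ - c i) hx1 hy3
  refine ⟨by rw [e1], ?_, e2, e3, e4, e5, e6⟩
  rw [← e1]
  refine (d.bd _ _).trans ?_
  have h6 : |y| ≤ 9 * d.δ := by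
    have : y = (y - y0) + y0 := by ring
    rw [this]
    refine (abs_add_le _ _).trans ?_
    linarith
  have h7 : |y / d.δ| ≤ 9 := by
    rw [abs_div, abs_of_pos hδ, div_le_iff₀ hδ]
    exact h6
  have h8 := abs_c i
  have h9 : |y / d.δ - c i| ≤ |y / d.δ| + |c i| := abs_sub _ _
  linarith

/-- first derivative of the weight -/
noncomputable def w1 (P : Profile) (i : Fin 8) (x : ℝ) : ℝ := s i * P.t1 x / 4
/-- second derivative of the weight -/
noncomputable def w2 (P : Profile) (i : Fin 8) (x : ℝ) : ℝ := s i * P.t2 x / 4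

lemma hw (i : Fin 8) (x : ℝ) : HasDerivAt (w d.P i) (w1 d.P i x) x := w_hasDeriv d.P i x
lemma hw1 (i : Fin 8) (x : ℝ) : HasDerivAt (w1 d.P i) (w2 d.P i x) x := w1_hasDeriv d.P i x
lemma w1_bd (i : Fin 8) (x : ℝ) : |w1 d.P i x| ≤ d.P.M / 4 := by
  unfold w1
  rw [abs_div, abs_mul, abs_s, one_mul]
  have := d.P.b1 x
  rw [abs_of_pos (by norm_num : (0:ℝ) < 4)]
  linarith
lemma w2_bd (i : Fin 8) (x : ℝ) : |w2 d.P i x| ≤ d.P.M / 4 := by
  unfold w2
  rw [abs_div, abs_mul, abs_s, one_mul]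
  have := d.P.b2 x
  rw [abs_of_pos (by norm_num : (0:ℝ) < 4)]
  linarith

lemma sum_abs_le (S : Finset (Fin 8)) (f : Fin 8 → ℝ) (B : ℝ) (hB : 0 ≤ B) (hf : ∀ j ∈ S, |f j| ≤ B)
    (i : Fin 8) (hi : i ∉ S) : |∑ j ∈ S, f j| ≤ 7 * B := by
  have h1 : S.card ≤ 7 := by
    have h2 : S ⊆ Finset.univ.erase i := fun j hj =>
      Finset.mem_erase.2 ⟨fun h => hi (h ▸ hj), Finset.mem_univ _⟩
    have := Finset.card_le_card h2
    simpa using this
  calc |∑ j ∈ S, f j| ≤ ∑ j ∈ S, |f j| := Finset.abs_sum_le_sum_abs _ _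
    _ ≤ S.card • B := Finset.sum_le_card_nsmul _ _ _ hf
    _ ≤ 7 * B := by
      rw [nsmul_eq_mul]
      exact mul_le_mul_of_nonneg_right (by exact_mod_cast h1) hB

lemma step (i : Fin 8) (x0 y0 : ℝ) (hy0 : |y0| ≤ 8 * d.δ)
    (hj : ∀ j, j ≠ i → 8 * d.δ < |y0 / d.δ - c j|) (h : d.Inner i x0 y0) : d.Good (x0, y0) := by
  have hM := d.P.hM
  have hδ := d.δpos
  have hδ1 := d.δle
  have hMδ := d.Mδ
  obtain ⟨ε, hε, a, a1, a2, g, g1, g2, h1, h2, h3, h4, h5⟩ := h
  set S : Finset (Fin 8) := Finset.univ.filter fun j => j ≠ i ∧ c j < y0 / d.δ with hS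
  have hiS : i ∉ S := by simp [hS]
  -- neighbourhood on which the signs persist
  have hnear : ∀ᶠ y in 𝓝 y0, ∀ j, j ≠ i → ((c j < y0 / d.δ → 8 * d.δ < y / d.δ - c j) ∧
      (¬ c j < y0 / d.δ → 8 * d.δ < -(y / d.δ - c j))) := by
    rw [Filter.eventually_all]
    intro j
    rw [Filter.eventually_imp_distrib_left]
    intro hji
    have h6 := hj j hji
    refine Filter.Eventually.and ?_ ?_
    · rw [Filter.eventually_imp_distrib_left]
      intro h7
      have h8 : 8 * d.δ < y0 / d.δ - c j := by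
        rwa [abs_of_pos (by linarith)] at h6
      have hc : ContinuousAt (fun y : ℝ => y / d.δ - c j) y0 := by fun_prop
      exact hc.eventually_const_lt h8
    · rw [Filter.eventually_imp_distrib_left]
      intro h7
      have h8 : 8 * d.δ < -(y0 / d.δ - c j) := by
        rwa [abs_of_nonpos (by linarith)] at h6
      have hc : ContinuousAt (fun y : ℝ => -(y / d.δ - c j)) y0 := by fun_prop
      exact hc.eventually_const_lt h8
  obtain ⟨ε2, hε2, hnear2⟩ := Metric.eventually_nhds_iff.1 hnear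
  refine ⟨min ε (min ε2 d.δ), by positivity,
    fun x => ∑ j ∈ S, w d.P j x * (-(d.δ * c j)) + d.δ * (w d.P i x * (a (2 * x) - g (2 * x) * c i)),
    fun x => ∑ j ∈ S, w1 d.P j x * (-(d.δ * c j)) +
      d.δ * (w1 d.P i x * (a (2 * x) - g (2 * x) * c i) +
        w d.P i x * (a1 (2 * x) * 2 - g1 (2 * x) * 2 * c i)),
    fun x => ∑ j ∈ S, w2 d.P j x * (-(d.δ * c j)) +
      d.δ * ((w2 d.P i x * (a (2 * x) - g (2 * x) * c i) +
        w1 d.P i x * (a1 (2 * x) * 2 - g1 (2 * x) * 2 * c i)) +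
        (w1 d.P i x * (a1 (2 * x) * 2 - g1 (2 * x) * 2 * c i) +
          w d.P i x * (a2 (2 * x) * 2 * 2 - g2 (2 * x) * 2 * 2 * c i))),
    fun x => ∑ j ∈ S, w d.P j x + w d.P i x * g (2 * x),
    fun x => ∑ j ∈ S, w1 d.P j x + (w1 d.P i x * g (2 * x) + w d.P i x * (g1 (2 * x) * 2)),
    fun x => ∑ j ∈ S, w2 d.P j x + ((w2 d.P i x * g (2 * x) + w1 d.P i x * (g1 (2 * x) * 2)) +
      (w1 d.P i x * (g1 (2 * x) * 2) + w d.P i x * (g2 (2 * x) * 2 * 2))),
    ?_, ?_, ?_, ?_, ?_⟩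
  have hcomp : ∀ (f f' : ℝ → ℝ), (∀ x, HasDerivAt f (f' x) x) →
      ∀ x, HasDerivAt (fun x => f (2 * x)) (f' (2 * x) * 2) x := by
    intro f f' hf x
    have h6 : HasDerivAt (fun x : ℝ => 2 * x) 2 x := by
      simpa using (hasDerivAt_id x).const_mul (2:ℝ)
    exact (hf (2 * x)).comp x h6
  · intro x
    refine HasDerivAt.add ?_ ?_
    · refine HasDerivAt.fun_sum fun j _ => ?_
      exact (d.hw j x).mul_const _
    · refine HasDerivAt.const_mul _ ?_
      exact (d.hw i x).mul ((hcomp a a1 h1 x).sub ((hcomp g g1 h3 x).mul_const _))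
  · intro x
    have hcomp : ∀ (f f' : ℝ → ℝ), (∀ x, HasDerivAt f (f' x) x) →
        ∀ x, HasDerivAt (fun x => f (2 * x)) (f' (2 * x) * 2) x := by
      intro f f' hf x
      have h6 : HasDerivAt (fun x : ℝ => 2 * x) 2 x := by
        simpa using (hasDerivAt_id x).const_mul (2:ℝ)
      exact (hf (2 * x)).comp x h6
    refine HasDerivAt.add ?_ ?_
    · refine HasDerivAt.fun_sum fun j _ => ?_
      exact (d.hw1 j x).mul_const _
    · refine HasDerivAt.const_mul _ ?_
      refine HasDerivAt.add ?_ ?_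
      · exact (d.hw1 i x).mul ((hcomp a a1 h1 x).sub ((hcomp g g1 h3 x).mul_const _))
      · exact (d.hw i x).mul (((hcomp a1 a2 h2 x).mul_const 2).sub
          (((hcomp g1 g2 h4 x).mul_const 2).mul_const _))
  · intro x
    have hcomp : ∀ (f f' : ℝ → ℝ), (∀ x, HasDerivAt f (f' x) x) →
        ∀ x, HasDerivAt (fun x => f (2 * x)) (f' (2 * x) * 2) x := by
      intro f f' hf x
      have h6 : HasDerivAt (fun x : ℝ => 2 * x) 2 x := by
        simpa using (hasDerivAt_id x).const_mul (2:ℝ)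
      exact (hf (2 * x)).comp x h6
    refine HasDerivAt.add ?_ ?_
    · exact HasDerivAt.fun_sum fun j _ => d.hw j x
    · exact (d.hw i x).mul (hcomp g g1 h3 x)
  · intro x
    have hcomp : ∀ (f f' : ℝ → ℝ), (∀ x, HasDerivAt f (f' x) x) →
        ∀ x, HasDerivAt (fun x => f (2 * x)) (f' (2 * x) * 2) x := by
      intro f f' hf x
      have h6 : HasDerivAt (fun x : ℝ => 2 * x) 2 x := by
        simpa using (hasDerivAt_id x).const_mul (2:ℝ)
      exact (hf (2 * x)).comp x h6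
    refine HasDerivAt.add ?_ ?_
    · exact HasDerivAt.fun_sum fun j _ => d.hw1 j x
    · refine HasDerivAt.add ?_ ?_
      · exact (d.hw1 i x).mul (hcomp g g1 h3 x)
      · exact (d.hw i x).mul ((hcomp g1 g2 h4 x).mul_const 2)
  · intro x y hx hy
    have hx1 : |x - x0| < ε := hx.trans_le (min_le_left _ _)
    have hy1 : |y - y0| < ε := hy.trans_le (min_le_left _ _)
    have hy2 : |y - y0| < ε2 := hy.trans_le ((min_le_right _ _).trans (min_le_left _ _))
    have hy3 : |y - y0| < d.δ := hy.trans_le ((min_le_right _ _).trans (min_le_right _ _))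
    obtain ⟨e0, e1, e2, e3, e4, e5, e6⟩ := h5 x y hx1 hy1
    have hnr := hnear2 (by rwa [Real.dist_eq] : dist y y0 < ε2)
    set Y : ℝ := y / d.δ - c i with hY
    have hYδ : d.δ * Y = y - d.δ * c i := by
      rw [hY]; field_simp
    -- the formula for F
    have hF : d.F (x, y) = ∑ j ∈ S, w d.P j x * (y - d.δ * c j) +
        d.δ * (w d.P i x * (a (2 * x) + g (2 * x) * Y)) := by
      rw [d.eqn, ← e0, ← Finset.add_sum_erase _ _ (Finset.mem_univ i), mul_add, add_comm]
      congr 1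
      have h6 : ∑ j ∈ Finset.univ.erase i, w d.P j x * d.F (2 * x, y / d.δ - c j) =
          ∑ j ∈ S, w d.P j x * (y / d.δ - c j) := by
        have h7 : S ⊆ Finset.univ.erase i := fun j hjS =>
          Finset.mem_erase.2 ⟨fun h => hiS (h ▸ hjS), Finset.mem_univ _⟩
        rw [← Finset.sum_subset h7]
        · refine Finset.sum_congr rfl fun j hjS => ?_
          have h8 := (Finset.mem_filter.1 hjS).2
          have h9 := (hnr j h8.1).1 h8.2
          rw [d.out _ _ (le_abs.2 (Or.inl h9.le)), pp_of_nonneg (by linarith)]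
        · intro j hj1 hj2
          have h8 : j ≠ i := (Finset.mem_erase.1 hj1).1
          have h9 : ¬ c j < y0 / d.δ := fun h10 => hj2 (by simp [hS, h8, h10])
          have h10 := (hnr j h8).2 h9
          rw [d.out _ _ (le_abs.2 (Or.inr h10.le)), pp_of_nonpos (by linarith), mul_zero]
      rw [h6, Finset.mul_sum]
      refine Finset.sum_congr rfl fun j _ => ?_
      field_simp
    have hwi0 := w_nonneg d.P i x
    have hwi1 := w_le d.P i x
    have hyb : |y| ≤ 9 * d.δ := by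
      have : y = (y - y0) + y0 := by ring
      rw [this]
      refine (abs_add_le _ _).trans ?_
      linarith
    have hycb : ∀ j, |y - d.δ * c j| ≤ 16 * d.δ := by
      intro j
      refine (abs_sub _ _).trans ?_
      rw [abs_mul, abs_of_pos hδ]
      have := abs_c j
      nlinarith
    have hw1b : ∀ j, |w1 d.P j x| ≤ d.P.M / 4 := fun j => d.w1_bd j x
    have hw2b : ∀ j, |w2 d.P j x| ≤ d.P.M / 4 := fun j => d.w2_bd j x
    refine ⟨?_, ?_, ?_, ?_, ?_, ?_⟩
    · rw [hF]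
      simp only [mul_sub, Finset.sum_sub_distrib, ← Finset.sum_mul, mul_neg, Finset.sum_neg_distrib]
      linear_combination (w d.P i x * g (2 * x)) * hYδ
    · have h6 : 0 ≤ ∑ j ∈ S, w d.P j x := Finset.sum_nonneg fun j _ => w_nonneg d.P j x
      have h7 : 0 ≤ w d.P i x * g (2 * x) := mul_nonneg hwi0 e2
      linarith
    · have h6 : ∑ j ∈ S, w d.P j x + w d.P i x ≤ 1 := by
        have h8 := Finset.sum_insert (f := fun j => w d.P j x) hiS
        rw [← sum_w d.P x, add_comm, ← h8]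
        exact Finset.sum_le_sum_of_subset_of_nonneg (Finset.subset_univ _)
          fun j _ _ => w_nonneg d.P j x
      nlinarith
    · have h6 : |∑ j ∈ S, w1 d.P j x| ≤ 7 * (d.P.M / 4) :=
        sum_abs_le S _ _ (by positivity) (fun j _ => hw1b j) i hiS
      have h7 : |w1 d.P i x * g (2 * x)| ≤ d.P.M / 4 * 1 := by
        rw [abs_mul, abs_of_nonneg e2]
        exact mul_le_mul (hw1b i) e3 e2 (by positivity)
      have h8 : |w d.P i x * (g1 (2 * x) * 2)| ≤ 1 / 4 * (4 * d.P.M * 2) := by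
        rw [abs_mul, abs_of_nonneg hwi0, abs_mul, abs_two]
        exact mul_le_mul hwi1 (by linarith) (by positivity) (by norm_num)
      have h9 := abs_add_le (∑ j ∈ S, w1 d.P j x)
        (w1 d.P i x * g (2 * x) + w d.P i x * (g1 (2 * x) * 2))
      have h10 := abs_add_le (w1 d.P i x * g (2 * x)) (w d.P i x * (g1 (2 * x) * 2))
      linarith
    · have key : (∑ j ∈ S, w1 d.P j x * (-(d.δ * c j)) +
          d.δ * (w1 d.P i x * (a (2 * x) - g (2 * x) * c i) +
          w d.P i x * (a1 (2 * x) * 2 - g1 (2 * x) * 2 * c i))) +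
          (∑ j ∈ S, w1 d.P j x + (w1 d.P i x * g (2 * x) + w d.P i x * (g1 (2 * x) * 2))) * y =
          ∑ j ∈ S, w1 d.P j x * (y - d.δ * c j) +
          (w1 d.P i x * (d.δ * (a (2 * x) + g (2 * x) * Y)) +
          w d.P i x * (d.δ * (2 * (a1 (2 * x) + g1 (2 * x) * Y)))) := by
        simp only [mul_sub, Finset.sum_sub_distrib, ← Finset.sum_mul, mul_neg,
          Finset.sum_neg_distrib]
        linear_combination (-(w1 d.P i x * g (2 * x)) - w d.P i x * (2 * g1 (2 * x))) * hYδ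
      simp only
      rw [key]
      have h6 : |∑ j ∈ S, w1 d.P j x * (y - d.δ * c j)| ≤ 7 * (d.P.M / 4 * (16 * d.δ)) := by
        refine sum_abs_le S _ _ (by positivity) (fun j _ => ?_) i hiS
        rw [abs_mul]
        exact mul_le_mul (hw1b j) (hycb j) (abs_nonneg _) (by positivity)
      have h7 : |w1 d.P i x * (d.δ * (a (2 * x) + g (2 * x) * Y))| ≤ d.P.M / 4 * (d.δ * 17) := by
        rw [abs_mul, abs_mul, abs_of_pos hδ]
        exact mul_le_mul (hw1b i) (mul_le_mul_of_nonneg_left e1 hδ.le) (by positivity)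
          (by positivity)
      have h8 : |w d.P i x * (d.δ * (2 * (a1 (2 * x) + g1 (2 * x) * Y)))| ≤
          1 / 4 * (d.δ * (2 * (4 * d.P.M))) := by
        rw [abs_mul, abs_of_nonneg hwi0, abs_mul, abs_of_pos hδ, abs_mul, abs_two]
        exact mul_le_mul hwi1 (by gcongr) (by positivity) (by norm_num)
      refine (abs_add_le _ _).trans ?_
      refine (add_le_add h6 ((abs_add_le _ _).trans (add_le_add h7 h8))).trans ?_
      have : 7 * (d.P.M / 4 * (16 * d.δ)) + (d.P.M / 4 * (d.δ * 17) +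
          1 / 4 * (d.δ * (2 * (4 * d.P.M)))) = (28 + 17 / 4 + 2) * (d.P.M * d.δ) := by ring
      rw [this, hMδ]
      linarith
    · have key : (∑ j ∈ S, w2 d.P j x * (-(d.δ * c j)) +
          d.δ * ((w2 d.P i x * (a (2 * x) - g (2 * x) * c i) +
          w1 d.P i x * (a1 (2 * x) * 2 - g1 (2 * x) * 2 * c i)) +
          (w1 d.P i x * (a1 (2 * x) * 2 - g1 (2 * x) * 2 * c i) +
          w d.P i x * (a2 (2 * x) * 2 * 2 - g2 (2 * x) * 2 * 2 * c i)))) +
          (∑ j ∈ S, w2 d.P j x + ((w2 d.P i x * g (2 * x) + w1 d.P i x * (g1 (2 * x) * 2)) +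
          (w1 d.P i x * (g1 (2 * x) * 2) + w d.P i x * (g2 (2 * x) * 2 * 2)))) * y =
          ∑ j ∈ S, w2 d.P j x * (y - d.δ * c j) +
          (w2 d.P i x * (d.δ * (a (2 * x) + g (2 * x) * Y)) +
          (w1 d.P i x * (d.δ * (4 * (a1 (2 * x) + g1 (2 * x) * Y))) +
          w d.P i x * (d.δ * (4 * (a2 (2 * x) + g2 (2 * x) * Y))))) := by
        simp only [mul_sub, Finset.sum_sub_distrib, ← Finset.sum_mul, mul_neg,
          Finset.sum_neg_distrib]
        linear_combination (-(w2 d.P i x * g (2 * x)) - w1 d.P i x * (4 * g1 (2 * x))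
          - w d.P i x * (4 * g2 (2 * x))) * hYδ
      simp only
      rw [key]
      have h6 : |∑ j ∈ S, w2 d.P j x * (y - d.δ * c j)| ≤ 7 * (d.P.M / 4 * (16 * d.δ)) := by
        refine sum_abs_le S _ _ (by positivity) (fun j _ => ?_) i hiS
        rw [abs_mul]
        exact mul_le_mul (hw2b j) (hycb j) (abs_nonneg _) (by positivity)
      have h7 : |w2 d.P i x * (d.δ * (a (2 * x) + g (2 * x) * Y))| ≤ d.P.M / 4 * (d.δ * 17) := by
        rw [abs_mul, abs_mul, abs_of_pos hδ]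
        exact mul_le_mul (hw2b i) (mul_le_mul_of_nonneg_left e1 hδ.le) (by positivity)
          (by positivity)
      have h8 : |w1 d.P i x * (d.δ * (4 * (a1 (2 * x) + g1 (2 * x) * Y)))| ≤
          d.P.M / 4 * (d.δ * (4 * (4 * d.P.M))) := by
        rw [abs_mul, abs_mul, abs_of_pos hδ, abs_mul, abs_of_pos (by norm_num : (0:ℝ) < 4)]
        exact mul_le_mul (hw1b i) (by gcongr) (by positivity) (by positivity)
      have h9 : |w d.P i x * (d.δ * (4 * (a2 (2 * x) + g2 (2 * x) * Y)))| ≤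
          1 / 4 * (d.δ * (4 * (4 * d.P.M))) := by
        rw [abs_mul, abs_of_nonneg hwi0, abs_mul, abs_of_pos hδ, abs_mul,
          abs_of_pos (by norm_num : (0:ℝ) < 4)]
        exact mul_le_mul hwi1 (by gcongr) (by positivity) (by norm_num)
      refine (abs_add_le _ _).trans ?_
      refine (add_le_add h6 ((abs_add_le _ _).trans (add_le_add h7
        ((abs_add_le _ _).trans (add_le_add h8 h9))))).trans ?_
      have : 7 * (d.P.M / 4 * (16 * d.δ)) + (d.P.M / 4 * (d.δ * 17) +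
          (d.P.M / 4 * (d.δ * (4 * (4 * d.P.M))) + 1 / 4 * (d.δ * (4 * (4 * d.P.M))))) =
          (28 + 17 / 4 + 4 * d.P.M + 4) * (d.P.M * d.δ) := by ring
      rw [this, hMδ]
      linarith

end Dat

end T6H52.Cvx
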