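import Mathlib
import Pool.Agent.T6.H52.Cvx.Step

/-! Local convexity off the bad set, and the properties of the bad set. -/

set_option autoImplicit false

open Set Filter Topology MeasureTheory

namespace T6H52.Cvx

namespace Dat

variable (d : Dat)

/-- the perturbed function -/
noncomputable def f (z : ℝ × ℝ) : ℝ := 4 * d.P.M * (z.1 ^ 2 + z.2 ^ 2) - d.F z

lemma f_cont : Continuous d.f := by
  unfold f
  exact (continuous_const.mul ((continuous_fst.pow 2).add (continuous_snd.pow 2))).sub d.cont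

/-- the bad set -/
def E : Set (ℝ × ℝ) := {z | ¬ d.Good z}

lemma E_closed : IsClosed d.E := by
  have : d.E = {z | d.Good z}ᶜ := rfl
  rw [this]
  exact d.good_open.isClosed_compl

/-- open box -/
def box (z : ℝ × ℝ) (ε : ℝ) : Set (ℝ × ℝ) := {p | |p.1 - z.1| < ε ∧ |p.2 - z.2| < ε}

lemma box_eq (z : ℝ × ℝ) (ε : ℝ) : box z ε = Metric.ball z ε := by
  ext p
  rw [Metric.mem_ball, Prod.dist_eq, max_lt_iff, Real.dist_eq, Real.dist_eq]
  rfl

lemma local_convex (z : ℝ × ℝ) (hz : d.Good z) :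
    ∃ V : Set (ℝ × ℝ), IsOpen V ∧ Convex ℝ V ∧ z ∈ V ∧ V ⊆ {z | d.Good z} ∧ ConvexOn ℝ V d.f := by
  have hM := d.P.hM
  obtain ⟨ε0, hε0, h0⟩ := Metric.isOpen_iff.1 d.good_open z hz
  obtain ⟨ε1, hε1, a, a1, a2, g, g1, g2, h1, h2, h3, h4, h5⟩ := hz
  set ε := min ε0 ε1 with hε
  have hεpos : 0 < ε := lt_min hε0 hε1
  have hconv : Convex ℝ (Metric.ball z ε) := convex_ball z ε
  refine ⟨Metric.ball z ε, Metric.isOpen_ball, hconv, Metric.mem_ball_self hεpos,
    (Metric.ball_subset_ball (min_le_left _ _)).trans h0, hconv, ?_⟩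
  intro p hp q hq α β hα hβ hαβ
  -- restrict to the segment
  set u := q.1 - p.1 with hu
  set v := q.2 - p.2 with hv
  set X : ℝ → ℝ := fun t => p.1 + t * u with hX
  set Y : ℝ → ℝ := fun t => p.2 + t * v with hY
  have hmem : ∀ t ∈ Icc (0:ℝ) 1, (X t, Y t) ∈ Metric.ball z ε := by
    intro t ht
    have h6 := hconv hp hq (sub_nonneg.2 ht.2) ht.1 (by ring)
    have h7 : (X t, Y t) = (1 - t) • p + t • q := by
      ext
      · simp [hX, hu]; ring
      · simp [hY, hv]; ring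
    rw [h7]; exact h6
  have hbx : ∀ t ∈ Icc (0:ℝ) 1, |X t - z.1| < ε1 ∧ |Y t - z.2| < ε1 := by
    intro t ht
    have h6 := hmem t ht
    rw [Metric.mem_ball, Prod.dist_eq, max_lt_iff, Real.dist_eq, Real.dist_eq] at h6
    exact ⟨h6.1.trans_le (min_le_right _ _), h6.2.trans_le (min_le_right _ _)⟩
  have hXd : ∀ t, HasDerivAt X u t := by
    intro t
    simpa [hX] using ((hasDerivAt_id t).mul_const u).const_add p.1
  have hYd : ∀ t, HasDerivAt Y v t := by
    intro t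
    simpa [hY] using ((hasDerivAt_id t).mul_const v).const_add p.2
  set φ : ℝ → ℝ := fun t => 4 * d.P.M * (X t * X t + Y t * Y t) - (a (X t) + g (X t) * Y t) with hφ
  set φ1 : ℝ → ℝ := fun t => 4 * d.P.M * ((u * X t + X t * u) + (v * Y t + Y t * v)) -
    (a1 (X t) * u + ((g1 (X t) * u) * Y t + g (X t) * v)) with hφ1
  set φ2 : ℝ → ℝ := fun t => 4 * d.P.M * ((u * u + u * u) + (v * v + v * v)) -
    ((a2 (X t) * u) * u + ((((g2 (X t) * u) * u) * Y t + (g1 (X t) * u) * v) +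
      (g1 (X t) * u) * v)) with hφ2
  have hφd : ∀ t, HasDerivAt φ (φ1 t) t := by
    intro t
    refine HasDerivAt.sub ?_ ?_
    · refine HasDerivAt.const_mul _ ?_
      exact ((hXd t).mul (hXd t)).add ((hYd t).mul (hYd t))
    · exact ((h1 (X t)).comp t (hXd t)).add (((h3 (X t)).comp t (hXd t)).mul (hYd t))
  have hφd2 : ∀ t, HasDerivAt φ1 (φ2 t) t := by
    intro t
    refine HasDerivAt.sub ?_ ?_
    · refine HasDerivAt.const_mul _ ?_
      exact (((hXd t).const_mul u).add ((hXd t).mul_const u)).add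
        (((hYd t).const_mul v).add ((hYd t).mul_const v))
    · refine HasDerivAt.add ?_ (HasDerivAt.add ?_ ?_)
      · exact ((h2 (X t)).comp t (hXd t)).mul_const u
      · exact (((h4 (X t)).comp t (hXd t)).mul_const u).mul (hYd t)
      · exact ((h3 (X t)).comp t (hXd t)).mul_const v
  have hpos : ∀ t ∈ Icc (0:ℝ) 1, 0 ≤ φ2 t := by
    intro t ht
    obtain ⟨e1, e2, e3, e4, e5, e6⟩ := h5 (X t) (Y t) (hbx t ht).1 (hbx t ht).2
    have e4' := abs_le.1 e4
    have e6' := abs_le.1 e6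
    simp only [hφ2]
    have k1 : (a2 (X t) + g2 (X t) * Y t) * (u * u) ≤ 4 * d.P.M * (u * u) :=
      mul_le_mul_of_nonneg_right e6'.2 (mul_self_nonneg u)
    have k2 : 2 * (g1 (X t)) * (u * v) ≤ 4 * d.P.M * (u * u + v * v) := by
      have k3 : |2 * (g1 (X t)) * (u * v)| ≤ (4 * d.P.M) * (2 * |u * v|) := by
        rw [abs_mul, abs_mul, abs_two]
        nlinarith [abs_nonneg (u * v)]
      have k4 : 2 * |u * v| ≤ u * u + v * v := by
        rw [abs_mul]
        nlinarith [sq_nonneg (|u| - |v|), abs_mul_abs_self u, abs_mul_abs_self v]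
      have k5 := le_abs_self (2 * (g1 (X t)) * (u * v))
      have k6 : (4 * d.P.M) * (2 * |u * v|) ≤ (4 * d.P.M) * (u * u + v * v) :=
        mul_le_mul_of_nonneg_left k4 (by linarith)
      linarith
    nlinarith [mul_nonneg (by linarith : (0:ℝ) ≤ d.P.M) (mul_self_nonneg u),
      mul_nonneg (by linarith : (0:ℝ) ≤ d.P.M) (mul_self_nonneg v)]
  have hcx : ConvexOn ℝ (Icc (0:ℝ) 1) φ := by
    refine convexOn_of_hasDerivWithinAt2_nonneg (convex_Icc 0 1) ?_ ?_ ?_ ?_ (f' := φ1) (f'' := φ2)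
    · exact fun t _ => (hφd t).continuousAt.continuousWithinAt
    · exact fun t _ => (hφd t).hasDerivWithinAt
    · exact fun t _ => (hφd2 t).hasDerivWithinAt
    · intro t ht
      exact hpos t (interior_subset ht)
  have hfφ : ∀ t ∈ Icc (0:ℝ) 1, d.f (X t, Y t) = φ t := by
    intro t ht
    obtain ⟨e1, _⟩ := h5 (X t) (Y t) (hbx t ht).1 (hbx t ht).2
    simp only [f, hφ]
    rw [e1]; ring
  have hend := hcx.2 (left_mem_Icc.2 zero_le_one) (right_mem_Icc.2 zero_le_one) hα hβ hαβ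
  have hβ1 : β ∈ Icc (0:ℝ) 1 := ⟨hβ, by linarith⟩
  have e0 : φ 0 = d.f p := by
    rw [← hfφ 0 (left_mem_Icc.2 zero_le_one)]
    congr 1
    ext <;> simp [hX, hY]
  have e1 : φ 1 = d.f q := by
    rw [← hfφ 1 (right_mem_Icc.2 zero_le_one)]
    congr 1
    ext <;> simp [hX, hY, hu, hv]
  have e2 : φ β = d.f (α • p + β • q) := by
    rw [← hfφ β hβ1]
    have hα' : α = 1 - β := by linarith
    congr 1
    ext
    · simp [hX, hu, hα']; ring
    · simp [hY, hv, hα']; ring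
  rw [e0, e1] at hend
  simp only [smul_eq_mul, mul_zero, mul_one, zero_add] at hend
  rw [e2] at hend
  simpa only [smul_eq_mul] using hend

lemma not_convex : ¬ ConvexOn ℝ univ d.f := by
  intro h
  have hM := d.P.hM
  have hδ := d.δpos
  have hMδ := d.Mδ
  have k1 := h.2 (mem_univ ((0:ℝ), -(16 * d.δ))) (mem_univ ((0:ℝ), 16 * d.δ))
    (by norm_num : (0:ℝ) ≤ 3 / 4) (by norm_num : (0:ℝ) ≤ 1 / 4) (by norm_num)
  have k2 := h.2 (mem_univ ((0:ℝ), -(16 * d.δ))) (mem_univ ((0:ℝ), 16 * d.δ))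
    (by norm_num : (0:ℝ) ≤ 1 / 4) (by norm_num : (0:ℝ) ≤ 3 / 4) (by norm_num)
  have e1 : (3 / 4 : ℝ) • ((0:ℝ), -(16 * d.δ)) + (1 / 4 : ℝ) • ((0:ℝ), 16 * d.δ) =
      (0, -(8 * d.δ)) := by
    ext
    · simp
    · simp; ring
  have e2 : (1 / 4 : ℝ) • ((0:ℝ), -(16 * d.δ)) + (3 / 4 : ℝ) • ((0:ℝ), 16 * d.δ) =
      (0, 8 * d.δ) := by
    ext
    · simp
    · simp; ring
  rw [e1] at k1
  rw [e2] at k2
  have f1 : d.F (0, -(8 * d.δ)) = 0 := by
    rw [d.out _ _ (by rw [abs_neg, abs_of_pos (by positivity)]), pp_of_nonpos (by linarith)]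
  have f2 : d.F (0, 8 * d.δ) = 8 * d.δ := by
    rw [d.out _ _ (by rw [abs_of_pos (by positivity)]), pp_of_nonneg (by linarith)]
  have f3 : d.F (0, -(16 * d.δ)) = 0 := by
    rw [d.out _ _ (by rw [abs_neg, abs_of_pos (by positivity)]; linarith),
      pp_of_nonpos (by linarith)]
  have f4 : d.F (0, 16 * d.δ) = 16 * d.δ := by
    rw [d.out _ _ (by rw [abs_of_pos (by positivity)]; linarith), pp_of_nonneg (by linarith)]
  simp only [f, smul_eq_mul] at k1 k2
  rw [f1, f3, f4] at k1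
  rw [f2, f3, f4] at k2
  have k3 : 8 * d.δ ≤ 1536 / 2 * d.P.M * d.δ ^ 2 * 2 := by nlinarith
  have k4 : d.P.M * d.δ ^ 2 = d.δ / 256 := by
    rw [pow_two, ← mul_assoc, hMδ]; ring
  nlinarith

lemma E_y {z : ℝ × ℝ} (hz : z ∈ d.E) : |z.2| ≤ 8 * d.δ := by
  by_contra h
  exact hz (d.good_far z (lt_of_not_ge h))

lemma E_digit_unique {y : ℝ} {i j : Fin 8} (hi : |y / d.δ - c i| ≤ 8 * d.δ) (hij : j ≠ i) :
    8 * d.δ < |y / d.δ - c j| := by
  have h1 := c_sep i j (Ne.symm hij)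
  have h2 : |c i - c j| ≤ |y / d.δ - c j| + |y / d.δ - c i| := by
    have : c i - c j = (y / d.δ - c j) - (y / d.δ - c i) := by ring
    rw [this]; exact abs_sub _ _
  have := d.δle
  linarith

lemma E_digit {x y : ℝ} (hz : (x, y) ∈ d.E) :
    ∃ i, |y / d.δ - c i| ≤ 8 * d.δ := by
  by_contra h
  push Not at h
  refine hz (d.step 0 x y (d.E_y hz) (fun j _ => h j) ?_)
  exact d.inner_of_good 0 x y (d.E_y hz) (d.good_far _ (h 0))

lemma E_step {x y : ℝ} (hz : (x, y) ∈ d.E) {i : Fin 8} (hi : |y / d.δ - c i| ≤ 8 * d.δ) :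
    (2 * x, y / d.δ - c i) ∈ d.E ∧ ¬ ∀ᶠ x' in 𝓝 x, w d.P i x' = 0 := by
  constructor
  · intro h
    exact hz (d.step i x y (d.E_y hz) (fun j hj => d.E_digit_unique hi hj)
      (d.inner_of_good i x y (d.E_y hz) h))
  · intro h
    exact hz (d.step i x y (d.E_y hz) (fun j hj => d.E_digit_unique hi hj)
      (d.inner_of_zero i x y h))

/-- projection of the bad set -/
def D : Set ℝ := Prod.snd '' d.E

lemma D_null : volume d.D = 0 := by
  have hδ := d.δpos
  have hδ1 := d.δle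
  have h1 : volume d.D ≠ ⊤ := by
    have h2 : d.D ⊆ Icc (-(8 * d.δ)) (8 * d.δ) := by
      rintro y ⟨z, hz, rfl⟩
      exact abs_le.1 (d.E_y hz)
    refine ne_top_of_le_ne_top ?_ (measure_mono h2)
    rw [Real.volume_Icc]
    exact ENNReal.ofReal_ne_top
  have h2 : d.D ⊆ ⋃ i : Fin 8, (fun y : ℝ => y / d.δ - c i) ⁻¹' d.D := by
    rintro y ⟨⟨x, y'⟩, hz, rfl⟩
    obtain ⟨i, hi⟩ := d.E_digit hz
    rw [mem_iUnion]
    exact ⟨i, ⟨_, (d.E_step hz hi).1, rfl⟩⟩
  have h3 : ∀ i : Fin 8, volume ((fun y : ℝ => y / d.δ - c i) ⁻¹' d.D) =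
      ENNReal.ofReal d.δ * volume d.D := by
    intro i
    have h4 : (fun y : ℝ => y / d.δ - c i) ⁻¹' d.D =
        (fun y => d.δ⁻¹ * y) ⁻¹' ((fun y => y + -(c i)) ⁻¹' d.D) := by
      ext y
      simp only [mem_preimage]
      rw [div_eq_inv_mul, sub_eq_add_neg]
    rw [h4, Real.volume_preimage_mul_left (inv_ne_zero hδ.ne'), measure_preimage_add_right,
      inv_inv, abs_of_pos hδ]
  have h4 : volume d.D ≤ ENNReal.ofReal (8 * d.δ) * volume d.D := by
    calc volume d.D ≤ volume (⋃ i : Fin 8, (fun y : ℝ => y / d.δ - c i) ⁻¹' d.D) :=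
          measure_mono h2
      _ ≤ ∑ i : Fin 8, volume ((fun y : ℝ => y / d.δ - c i) ⁻¹' d.D) := by
          refine (measure_iUnion_le _).trans ?_
          rw [tsum_fintype]
      _ = ENNReal.ofReal (8 * d.δ) * volume d.D := by
          simp only [h3, Finset.sum_const, Finset.card_univ, Fintype.card_fin, nsmul_eq_mul]
          rw [← mul_assoc, ENNReal.ofReal_mul (by norm_num)]
          norm_num
  by_contra h5
  have h6 : ENNReal.ofReal (8 * d.δ) * volume d.D < 1 * volume d.D := by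
    rw [ENNReal.mul_lt_mul_iff_left h5 h1]
    rw [← ENNReal.ofReal_one]
    rw [ENNReal.ofReal_lt_ofReal_iff one_pos]
    linarith
  rw [one_mul] at h6
  exact absurd h4 (not_le.2 h6)

lemma E_null : volume d.E = 0 := by
  have h1 : d.E ⊆ univ ×ˢ d.D := fun z hz => ⟨mem_univ _, z, hz, rfl⟩
  refine measure_mono_null h1 ?_
  rw [Measure.volume_eq_prod, Measure.prod_prod, d.D_null, mul_zero]

lemma w_zero_or (i : Fin 8) (m : ℤ) : (∀ᶠ x in 𝓝 (m : ℝ), w d.P i x = 0) ∨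
    (∀ᶠ x in 𝓝 ((m : ℝ) + 1 / 2), w d.P i x = 0) := by
  have h0 := d.P.zero m
  have h1 := d.P.one m
  fin_cases i
  · right; filter_upwards [h1] with x hx; simp [w, b, s, hx]
  · left; filter_upwards [h0] with x hx; simp [w, b, s, hx]
  · left; filter_upwards [h0] with x hx; simp [w, b, s, hx]
  · right; filter_upwards [h1] with x hx; simp [w, b, s, hx]
  · right; filter_upwards [h1] with x hx; simp [w, b, s, hx]
  · left; filter_upwards [h0] with x hx; simp [w, b, s, hx]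
  · left; filter_upwards [h0] with x hx; simp [w, b, s, hx]
  · right; filter_upwards [h1] with x hx; simp [w, b, s, hx]

lemma no_long (x1 x2 y : ℝ) (hx : x1 + 2 ≤ x2) (h : ∀ x ∈ Icc x1 x2, (x, y) ∈ d.E) : False := by
  obtain ⟨i, hi⟩ := d.E_digit (h x1 ⟨le_refl _, by linarith⟩)
  set m : ℤ := ⌈x1⌉ with hm
  have hm1 : x1 ≤ m := Int.le_ceil x1
  have hm2 : (m : ℝ) < x1 + 1 := Int.ceil_lt_add_one x1
  rcases d.w_zero_or i m with h1 | h1
  · exact (d.E_step (h m ⟨hm1, by linarith⟩) hi).2 h1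
  · exact (d.E_step (h ((m : ℝ) + 1 / 2) ⟨by linarith, by linarith⟩) hi).2 h1

lemma double (x1 x2 y : ℝ) (hx : x1 < x2) (h : ∀ x ∈ Icc x1 x2, (x, y) ∈ d.E) :
    ∃ y', ∀ x ∈ Icc (2 * x1) (2 * x2), (x, y') ∈ d.E := by
  obtain ⟨i, hi⟩ := d.E_digit (h x1 ⟨le_refl _, hx.le⟩)
  refine ⟨y / d.δ - c i, fun x hx' => ?_⟩
  have h1 := (d.E_step (h (x / 2) ⟨by linarith [hx'.1], by linarith [hx'.2]⟩) hi).1
  have h2 : 2 * (x / 2) = x := by ring
  rwa [h2] at h1

lemma no_seg (x1 x2 y : ℝ) (hx : x1 < x2) (h : ∀ x ∈ Icc x1 x2, (x, y) ∈ d.E) : False := by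
  have h1 : ∀ n : ℕ, ∃ y', ∀ x ∈ Icc (2 ^ n * x1) (2 ^ n * x2), (x, y') ∈ d.E := by
    intro n
    induction n with
    | zero => exact ⟨y, by simpa using h⟩
    | succ n ih =>
      obtain ⟨y', hy'⟩ := ih
      have h2 : (2:ℝ) ^ n * x1 < 2 ^ n * x2 := by
        have : (0:ℝ) < 2 ^ n := by positivity
        nlinarith
      obtain ⟨y'', hy''⟩ := d.double _ _ y' h2 hy'
      refine ⟨y'', ?_⟩
      rw [pow_succ', mul_assoc, mul_assoc]
      exact hy''
  obtain ⟨n, hn⟩ := pow_unbounded_of_one_lt (2 / (x2 - x1)) (by norm_num : (1:ℝ) < 2)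
  obtain ⟨y', hy'⟩ := h1 n
  refine d.no_long _ _ y' ?_ hy'
  rw [div_lt_iff₀ (by linarith)] at hn
  linarith

lemma E_tot : IsTotallyDisconnected d.E := by
  intro t ht hp
  have hsnd : ∀ p ∈ t, ∀ q ∈ t, p.2 ≤ q.2 := by
    intro p hpt q hqt
    by_contra hlt
    push Not at hlt
    have h1 : IsPreconnected (Prod.snd '' t) := hp.image _ continuous_snd.continuousOn
    have h2 : Icc q.2 p.2 ⊆ Prod.snd '' t :=
      h1.Icc_subset ⟨q, hqt, rfl⟩ ⟨p, hpt, rfl⟩
    have h3 : Icc q.2 p.2 ⊆ d.D := h2.trans (image_mono ht)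
    have h4 := measure_mono_null h3 d.D_null
    rw [Real.volume_Icc, ENNReal.ofReal_eq_zero] at h4
    linarith
  have hfst : ∀ p ∈ t, ∀ q ∈ t, p.1 ≤ q.1 := by
    intro p hpt q hqt
    by_contra hlt
    push Not at hlt
    have h1 : IsPreconnected (Prod.fst '' t) := hp.image _ continuous_fst.continuousOn
    have h2 : Icc q.1 p.1 ⊆ Prod.fst '' t :=
      h1.Icc_subset ⟨q, hqt, rfl⟩ ⟨p, hpt, rfl⟩
    refine d.no_seg q.1 p.1 q.2 hlt fun x hx => ?_
    obtain ⟨r, hr, hrx⟩ := h2 hx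
    have h3 : r.2 = q.2 := le_antisymm (hsnd r hr q hqt) (hsnd q hqt r hr)
    have h4 : r = (x, q.2) := by
      ext
      · exact hrx
      · exact h3
    rw [← h4]
    exact ht hr
  intro p hpt q hqt
  ext
  · exact le_antisymm (hfst p hpt q hqt) (hfst q hqt p hpt)
  · exact le_antisymm (hsnd p hpt q hqt) (hsnd q hqt p hpt)

end Dat

/-- Bundled form of the construction. -/
theorem exists_nonremovable : ∃ E : Set (ℝ × ℝ), IsClosed E ∧ IsTotallyDisconnected E ∧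
    volume E = 0 ∧ volume (Prod.snd '' E) = 0 ∧ ∃ f : ℝ × ℝ → ℝ, Continuous f ∧
      (∀ z ∈ Eᶜ, ∃ V : Set (ℝ × ℝ), IsOpen V ∧ Convex ℝ V ∧ z ∈ V ∧ V ⊆ Eᶜ ∧ ConvexOn ℝ V f) ∧
      ¬ ConvexOn ℝ univ f := by
  obtain ⟨d⟩ := exists_dat
  refine ⟨d.E, d.E_closed, d.E_tot, d.E_null, d.D_null, d.f, d.f_cont, ?_, d.not_convex⟩
  intro z hz
  have hz' : d.Good z := by
    by_contra h
    exact hz h
  obtain ⟨V, h1, h2, h3, h4, h5⟩ := d.local_convex z hz'
  exact ⟨V, h1, h2, h3, fun p hp hpE => hpE (h4 hp), h5⟩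

end T6H52.Cvx
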