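import Mathlib
import Pool.Agent.T6.H52.Cvx.Final

/-! Passing to a compact bad set by taking the maximum with a steep paraboloid. -/

set_option autoImplicit false

open Set Filter Topology MeasureTheory

namespace T6H52.Cvx

namespace Dat

variable (d : Dat)

/-- steep paraboloid -/
noncomputable def h (z : ℝ × ℝ) : ℝ := (4 * d.P.M + 1) * (z.1 ^ 2 + z.2 ^ 2) - 3

lemma h_cont : Continuous d.h := by
  unfold h
  exact (continuous_const.mul ((continuous_fst.pow 2).add (continuous_snd.pow 2))).sub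
    continuous_const

lemma h_convex : ConvexOn ℝ univ d.h := by
  have hM := d.P.hM
  refine ⟨convex_univ, ?_⟩
  rintro ⟨p1, p2⟩ - ⟨q1, q2⟩ - a b ha hb hab
  simp only [h, Prod.smul_mk, Prod.mk_add_mk, smul_eq_mul]
  have hb' : b = 1 - a := by linarith
  subst hb'
  have key : (a * ((4 * d.P.M + 1) * (p1 ^ 2 + p2 ^ 2) - 3) +
      (1 - a) * ((4 * d.P.M + 1) * (q1 ^ 2 + q2 ^ 2) - 3)) -
      ((4 * d.P.M + 1) * ((a * p1 + (1 - a) * q1) ^ 2 + (a * p2 + (1 - a) * q2) ^ 2) - 3) =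
      (4 * d.P.M + 1) * (a * (1 - a)) * ((p1 - q1) ^ 2 + (p2 - q2) ^ 2) := by ring
  have : 0 ≤ (4 * d.P.M + 1) * (a * (1 - a)) * ((p1 - q1) ^ 2 + (p2 - q2) ^ 2) := by
    have := mul_nonneg ha hb
    positivity
  linarith

/-- the modified function -/
noncomputable def g (z : ℝ × ℝ) : ℝ := max (d.f z) (d.h z)

/-- the compact bad set -/
def K : Set (ℝ × ℝ) := d.E ∩ {z | d.h z ≤ d.f z}

lemma f_eq_max {y : ℝ} (hy : |y| ≤ 16 * d.δ) : d.h (0, y) ≤ d.f (0, y) := by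
  have hδ := d.δpos
  have hδ1 := d.δle
  have hb := d.bd 0 y
  have h1 := (abs_le.1 hb).2
  have h2 : |y| ≤ 1 / 16 := by linarith
  have h3 : y ^ 2 ≤ 1 := by
    rw [← sq_abs]
    nlinarith [abs_nonneg y]
  simp only [h, f]
  nlinarith

lemma K_compact : IsCompact d.K := by
  refine Metric.isCompact_of_isClosed_isBounded
    (d.E_closed.inter (isClosed_le d.h_cont d.f_cont)) ?_
  rw [isBounded_iff_forall_norm_le]
  refine ⟨4, ?_⟩
  rintro ⟨x, y⟩ ⟨-, hz⟩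
  replace hz : d.h (x, y) ≤ d.f (x, y) := hz
  simp only [h, f] at hz
  have h1 := (abs_le.1 (d.bd x y)).1
  have h2 : x ^ 2 + y ^ 2 ≤ |y| + 4 := by nlinarith
  have h3 : |x| ≤ 4 := by
    rw [← sq_abs x, ← sq_abs y] at h2
    nlinarith [abs_nonneg x, abs_nonneg y, sq_nonneg (|y| - 1)]
  have h4 : |y| ≤ 4 := by
    rw [← sq_abs x, ← sq_abs y] at h2
    nlinarith [abs_nonneg x, abs_nonneg y]
  rw [Prod.norm_def]
  exact max_le h3 h4

lemma g_cont : Continuous d.g := d.f_cont.max d.h_cont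

lemma g_local (z : ℝ × ℝ) (hz : z ∈ d.Kᶜ) :
    ∃ V : Set (ℝ × ℝ), IsOpen V ∧ Convex ℝ V ∧ z ∈ V ∧ V ⊆ d.Kᶜ ∧ ConvexOn ℝ V d.g := by
  by_cases hE : z ∈ d.E
  · have h1 : d.f z < d.h z := by
      by_contra h2
      exact hz ⟨hE, not_lt.1 h2⟩
    have h3 : IsOpen {z | d.f z < d.h z} := isOpen_lt d.f_cont d.h_cont
    obtain ⟨ε, hε, h4⟩ := Metric.isOpen_iff.1 h3 z h1
    refine ⟨Metric.ball z ε, Metric.isOpen_ball, convex_ball z ε, Metric.mem_ball_self hε, ?_, ?_⟩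
    · intro p hp hpK
      have h6 : d.h p ≤ d.f p := hpK.2
      have h7 : d.f p < d.h p := h4 hp
      exact absurd h6 (not_le.2 h7)
    · refine (d.h_convex.subset (subset_univ _) (convex_ball z ε)).congr ?_
      intro p hp
      have h5 : d.f p < d.h p := h4 hp
      exact (max_eq_right h5.le).symm
  · have hz' : d.Good z := by
      by_contra h
      exact hE h
    obtain ⟨V, h1, h2, h3, h4, h5⟩ := d.local_convex z hz'
    refine ⟨V, h1, h2, h3, fun p hp hpK => hpK.1 (h4 hp), ?_⟩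
    exact h5.sup (d.h_convex.subset (subset_univ _) h2)

lemma g_eq {y : ℝ} (hy : |y| ≤ 16 * d.δ) : d.g (0, y) = d.f (0, y) :=
  max_eq_left (d.f_eq_max hy)

lemma g_not_convex : ¬ ConvexOn ℝ univ d.g := by
  intro h
  have hM := d.P.hM
  have hδ := d.δpos
  have hMδ := d.Mδ
  have k1 := h.2 (mem_univ ((0:ℝ), -(16 * d.δ))) (mem_univ ((0:ℝ), 16 * d.δ))
    (by norm_num : (0:ℝ) ≤ 3 / 4) (by norm_num : (0:ℝ) ≤ 1 / 4) (by norm_num)
  have k2 := h.2 (mem_univ ((0:ℝ), -(16 * d.δ))) (mem_univ ((0:ℝ), 16 * d.δ))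
    (by norm_num : (0:ℝ) ≤ 1 / 4) (by norm_num : (0:ℝ) ≤ 3 / 4) (by norm_num)
  have e1 : (3 / 4 : ℝ) • ((0:ℝ), -(16 * d.δ)) + (1 / 4 : ℝ) • ((0:ℝ), 16 * d.δ) =
      (0, -(8 * d.δ)) := by
    ext
    · simp
    · simp; ring
  have e2 : (1 / 4 : ℝ) • ((0:ℝ), -(16 * d.δ)) + (3 / 4 : ℝ) • ((0:ℝ), 16 * d.δ) =
      (0, 8 * d.δ) := by
    ext
    · simp
    · simp; ring
  rw [e1] at k1
  rw [e2] at k2
  rw [d.g_eq (by rw [abs_neg, abs_of_pos (by positivity)]; linarith),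
    d.g_eq (by rw [abs_neg, abs_of_pos (by positivity)]),
    d.g_eq (by rw [abs_of_pos (by positivity)])] at k1
  rw [d.g_eq (by rw [abs_of_pos (by positivity)]; linarith),
    d.g_eq (by rw [abs_neg, abs_of_pos (by positivity)]),
    d.g_eq (by rw [abs_of_pos (by positivity)])] at k2
  have f1 : d.F (0, -(8 * d.δ)) = 0 := by
    rw [d.out _ _ (by rw [abs_neg, abs_of_pos (by positivity)]), pp_of_nonpos (by linarith)]
  have f2 : d.F (0, 8 * d.δ) = 8 * d.δ := by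
    rw [d.out _ _ (by rw [abs_of_pos (by positivity)]), pp_of_nonneg (by linarith)]
  have f3 : d.F (0, -(16 * d.δ)) = 0 := by
    rw [d.out _ _ (by rw [abs_neg, abs_of_pos (by positivity)]; linarith),
      pp_of_nonpos (by linarith)]
  have f4 : d.F (0, 16 * d.δ) = 16 * d.δ := by
    rw [d.out _ _ (by rw [abs_of_pos (by positivity)]; linarith), pp_of_nonneg (by linarith)]
  simp only [f, smul_eq_mul] at k1 k2
  rw [f1, f3, f4] at k1
  rw [f2, f3, f4] at k2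
  have k3 : 8 * d.δ ≤ 1536 / 2 * d.P.M * d.δ ^ 2 * 2 := by nlinarith
  have k4 : d.P.M * d.δ ^ 2 = d.δ / 256 := by
    rw [pow_two, ← mul_assoc, hMδ]; ring
  nlinarith

end Dat

/-- Compact form of the construction. -/
theorem exists_compact_nonremovable : ∃ E : Set (ℝ × ℝ), IsCompact E ∧ IsTotallyDisconnected E ∧
    volume E = 0 ∧ volume (Prod.snd '' E) = 0 ∧ ∃ f : ℝ × ℝ → ℝ, Continuous f ∧
      (∀ z ∈ Eᶜ, ∃ V : Set (ℝ × ℝ), IsOpen V ∧ Convex ℝ V ∧ z ∈ V ∧ V ⊆ Eᶜ ∧ ConvexOn ℝ V f) ∧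
      ¬ ConvexOn ℝ univ f := by
  obtain ⟨d⟩ := exists_dat
  refine ⟨d.K, d.K_compact, ?_, ?_, ?_, d.g, d.g_cont, d.g_local, d.g_not_convex⟩
  · exact fun t ht hp => d.E_tot t (ht.trans inter_subset_left) hp
  · exact measure_mono_null inter_subset_left d.E_null
  · exact measure_mono_null (image_mono inter_subset_left) d.D_null

end T6H52.Cvx
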